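import Pool.Agent.PDZ.Stmts
import Pool.Agent.PDZ.StmtT

/-!
# PDZ: the rows TT, TB, TE from the tube with mixed extra units
-/

set_option autoImplicit false

namespace Pool.Agent.PDZ.H86

open Multiset

theorem sm_eq (k : ℕ) (P : Multiset ℕ) : (P.map fun v => v - k).sum = sm k P := rfl

theorem sum_even (P : Multiset ℕ) (h : ∀ v ∈ P, v % 2 = 0) : P.sum % 2 = 0 := by
  induction P using Multiset.induction_on with
  | empty => rfl
  | cons a s ih =>
    rw [Multiset.sum_cons]
    have h1 := ih fun v hv => h v (Multiset.mem_cons_of_mem hv)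
    have h2 := h a (Multiset.mem_cons_self a s)
    omega

theorem sm_13_12 (P : Multiset ℕ) (h : ∀ v ∈ P, 13 ≤ v) : sm 12 P = sm 13 P + card P := by
  induction P using Multiset.induction_on with
  | empty => rfl
  | cons a s ih =>
    have h1 := ih fun v hv => h v (Multiset.mem_cons_of_mem hv)
    have h2 := h a (Multiset.mem_cons_self a s)
    unfold sm at h1 ⊢
    rw [Multiset.map_cons, Multiset.map_cons, Multiset.sum_cons, Multiset.sum_cons,
      Multiset.card_cons]
    omega

/-- a member gives a bound for `Δ` -/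
theorem delta_pos {Δ k : ℕ} {P : Multiset ℕ} (hc : 3 ≤ card P) (h : ∀ v ∈ P, k ≤ v ∧ v ≤ Δ)
    (hk : 1 ≤ k) : 1 ≤ Δ := by
  obtain ⟨v, hv⟩ := Multiset.card_pos_iff_exists_mem.mp (by omega : 0 < card P)
  have := h v hv
  omega

theorem tt (hT : TubStmt) : TtStmt := by
  refine ⟨60012, ?_⟩
  intro t ht Δ P hc hP
  have hΔ : 1 ≤ Δ := delta_pos hc (fun v hv => ⟨(hP v hv).1, (hP v hv).2.1⟩) (by omega)
  rcases Nat.eq_zero_or_pos t with rfl | ht1
  · obtain ⟨N, hN⟩ : ∃ N, N = 2 * (sm 6 P / 4 + 1 + 5000 * Δ) := ⟨_, rfl⟩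
    refine ⟨N, pz_of_rz (PDS.main_all Δ _ ?_ ?_ ?_), ?_⟩
    · intro v hv
      rcases Multiset.mem_add.mp hv with h | h
      · have := hP v h
        omega
      · rw [Multiset.eq_of_mem_replicate h]
        obtain ⟨w, hw⟩ := Multiset.card_pos_iff_exists_mem.mp (by omega : 0 < card P)
        have := hP w hw
        omega
    · rw [Multiset.sum_add, Multiset.sum_replicate, smul_eq_mul]
      have h1 := sum_even P fun v hv => (hP v hv).2.2
      omega
    · have h1 : PDS.demand (P + replicate N 3) = sm 6 P := by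
        unfold PDS.demand sm
        rw [Multiset.map_add, Multiset.sum_add, Multiset.map_replicate, Multiset.sum_replicate]
        simp
      have h2 : N ≤ (P + replicate N 3).count 3 := by
        rw [Multiset.count_add, Multiset.count_replicate_self]
        omega
      have h3 : 2 * (P + replicate N 3).count 3 ≤ PDS.supply (P + replicate N 3) := by
        unfold PDS.supply
        omega
      rw [h1]
      omega
    · have h0 : sm (6 + 0) P = sm 6 P := rfl
      rw [h0]
      omega
  · obtain ⟨U, O, F, G, h1, h2, h3, h4, h5, h6, h7, h8, h9⟩ :=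
      hT t Δ P ht1 ht fun v hv => ⟨(hP v hv).1, (hP v hv).2.1⟩
    have hO : O = 0 := h5 fun v hv => (hP v hv).2.2
    have hU : U % 2 = 0 := by rw [h4, hO]
    have h := h9 (U / 2) 0 0 0 (by omega) (by omega) (fun _ => rfl)
    rw [sm_eq] at h2
    refine ⟨F + G + 2 * (U / 2), ?_, ?_⟩
    · simpa using h
    · have h10 : 2 * t * card P = 2 * (t * card P) := by ring
      rw [h10]
      omega

theorem tb (hT : TubStmt) : TbStmt := by
  refine ⟨2000, ?_⟩
  intro i hi Δ P hc hP
  have hΔ : 1 ≤ Δ := delta_pos hc hP (by omega)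
  obtain ⟨U, O, F, G, h1, h2, h3, h4, h5, h6, h7, h8, h9⟩ :=
    hT 6 Δ P (by omega) le_rfl hP
  rw [sm_eq] at h2
  have h26 : sm (6 + 6) P = sm 12 P := rfl
  rw [h26] at h2
  rcases hi with rfl | rfl | rfl
  · refine ⟨F + G + 2 * 0, 2 * U, ?_, by omega, ?_⟩
    · have h := h9 0 0 0 U (by omega) (by omega) (by omega)
      simpa using h
    · have : PDS.cap 1 = 1 := by decide
      rw [this]
      omega
  · refine ⟨F + G + 2 * 0, U, ?_, by omega, ?_⟩
    · have h := h9 0 U 0 0 (by omega) (by omega) (by omega)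
      simpa using h
    · have : PDS.cap 2 = 2 := by decide
      rw [this]
      omega
  · refine ⟨F + G + 2 * 0, U, ?_, by omega, ?_⟩
    · have h := h9 0 0 U 0 (by omega) (by omega) (by omega)
      simpa using h
    · have : PDS.cap 4 = 2 := by decide
      rw [this]
      omega

theorem te (hT : TubStmt) : TeStmt := by
  refine ⟨2000, ?_⟩
  intro i hi Δ P hc hP
  have hΔ : 1 ≤ Δ := delta_pos hc (fun v hv => ⟨(hP v hv).1, (hP v hv).2.1⟩) (by omega)
  obtain ⟨U, O, F, G, h1, h2, h3, h4, h5, h6, h7, h8, h9⟩ :=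
    hT 6 Δ P (by omega) le_rfl fun v hv => ⟨by have := hP v hv; omega, (hP v hv).2.1⟩
  have hO : 2 * O ≤ card P + 1 := h6 fun v hv => by
    have := hP v hv
    omega
  have h26 : sm (6 + 6) P = sm 12 P := rfl
  rw [sm_eq, h26] at h1 h2
  have h27 := sm_13_12 P fun v hv => (hP v hv).1
  -- the number of the units which are not pairs of 3s
  obtain ⟨B, hB1, hB2, hB3, hB4, hB5⟩ : ∃ B, O ≤ B ∧ B ≤ U ∧ (U - B) % 2 = 0 ∧
      2 * B ≤ card P + 3 ∧ (card P ≤ 2 * B + 1 ∨ B = U) := by
    rcases Nat.lt_or_ge U (card P / 2) with hlt | hge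
    · exact ⟨U, by omega, le_rfl, by omega, by omega, Or.inr rfl⟩
    · rcases Nat.lt_or_ge O (card P / 2) with hlt | hge
      · refine ⟨card P / 2 + (U - card P / 2) % 2, by omega, by omega, by omega, by omega,
          Or.inl (by omega)⟩
      · refine ⟨O + (U - O) % 2, by omega, by omega, by omega, by omega, Or.inl (by omega)⟩
  have ha : 2 * ((U - B) / 2) + B = U := by omega
  have hN : 6 * (F + G + 2 * ((U - B) / 2)) ≤ 12 * card P + 3 * sm 13 P + 2000 * Δ := by
    rcases hB5 with h | h <;> omega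
  rcases hi with rfl | rfl | rfl
  · refine ⟨F + G + 2 * ((U - B) / 2), 2 * B, ?_, hN, ?_⟩
    · have h := h9 ((U - B) / 2) 0 0 B (by omega) (by omega) (by omega)
      simpa using h
    · have : PDS.cap 1 = 1 := by decide
      rw [this]
      omega
  · refine ⟨F + G + 2 * ((U - B) / 2), B, ?_, hN, ?_⟩
    · have h := h9 ((U - B) / 2) B 0 0 (by omega) (by omega) (by omega)
      simpa using h
    · have : PDS.cap 2 = 2 := by decide
      rw [this]
      omega
  · refine ⟨F + G + 2 * ((U - B) / 2), B, ?_, hN, ?_⟩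
    · have h := h9 ((U - B) / 2) 0 B 0 (by omega) (by omega) (by omega)
      simpa using h
    · have : PDS.cap 4 = 2 := by decide
      rw [this]
      omega

end Pool.Agent.PDZ.H86
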